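import Pool.Agent.RSZ.Final

set_option autoImplicit false

open Filter Topology

namespace Pool.Agent.Results.MP_41f28e_nt.DensityZero

open Pool.Agent.GaussPret

/-- The assertions of Q1 and Q2 hold for `f` (the inner limits exist and tend to `0`), if
`P(f) ≠ 0`, or if `P(|f|) = 0`, or if `f` has the sign of a real ray class character `χ` up to a set
of primes of density zero, in the sense that
`∑_{√t < N(p) ≤ t} (|f(p)| - f(p) χ(p)) / N(p) → 0` as `t → ∞`. -/
theorem result (f : GaussianInt → ℝ) (hf : IsBCM f)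
    (h : PP f ≠ 0 ∨ PP (fun n => |f n|) = 0 ∨
      ∃ (m : ℕ) (χ : GaussianInt → ℝ), 0 < m ∧ IsRayChar m χ ∧
        Tendsto (fun t : ℝ => ∑' p : P1,
          if Real.sqrt t < nm (p : GaussianInt) ∧ nm (p : GaussianInt) ≤ t then
            (|f (p : GaussianInt)| - f (p : GaussianInt) * χ (p : GaussianInt)) /
              nm (p : GaussianInt)
          else 0) atTop (𝓝 0)) :
    ShortAvg f sqr ∧ ∀ Φ : ℕ → Finset GaussianInt, IsDilatedFolner Φ → ShortAvg f Φ := by
  rcases h with h | h | ⟨m, χ, hm, hχ, hs⟩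
  · have key : ∀ Φ : ℕ → Finset GaussianInt, IsDilatedFolner Φ → ShortAvg f Φ := by
      intro Φ hΦ
      refine pret_main hf isRayChar_one one_pos ?_ hΦ
      simpa only [mul_one] using summable_of_PP hf h
    exact ⟨key sqr isDilatedFolner_sqr, key⟩
  · exact ⟨zero_main hf h isDilatedFolner_sqr, fun Φ hΦ => zero_main hf h hΦ⟩
  · exact Pool.Agent.RSG.dz_main hf hm hχ hs

end Pool.Agent.Results.MP_41f28e_nt.DensityZero
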