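import Pool.Agent.MRG.Main

set_option autoImplicit false

namespace Pool.Agent.Results.MP_41f28e_nt.MatomakiRadziwill

open Pool.Agent.GaussPret Pool.Agent.MRG

/-- For every bounded completely multiplicative real function `f` on the nonzero Gaussian integers
with `f(i) = 1`, and for the centred squares and every dilated Folner sequence `Φ`, the outer
average over `n ∈ Φ_N` of `|E_{h ∈ n + Φ_H} f(h) - P(f)|` is small as soon as `H ≥ H0(ε)` and
`N ≥ N0(ε, H)`: its `lim sup` over `N` tends to `0` as `H → ∞`. -/
theorem result (f : GaussianInt → ℝ) (hf : IsBCM f) :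
    ShortAvgSup f sqr ∧ ∀ Φ : ℕ → Finset GaussianInt, IsDilatedFolner Φ → ShortAvgSup f Φ :=
  ⟨mr_main hf isDilatedFolner_sqr, fun _ hΦ => mr_main hf hΦ⟩

end Pool.Agent.Results.MP_41f28e_nt.MatomakiRadziwill
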