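import Pool.Agent.RSG.Main2

set_option autoImplicit false

open Filter Topology MeasureTheory ProbabilityTheory

namespace Pool.Agent.Results.MP_41f28e_nt.RandomSigns

open Pool.Agent.GaussPret

/-- Let `X_p` be independent random signs with
`∑_{(log t)^4 < N(p) ≤ t} (1 - |E X_p|) / N(p) → ∞`.  Almost surely, every function `f` of the
problem with `∑_p (|f(p)| - X_p χ(p) f(p)) / N(p) < ∞` for some real ray class character `χ`
satisfies the assertions of Q1 and Q2 (the inner limits exist and tend to `0`). -/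
theorem result {Ω : Type*} [MeasurableSpace Ω] (μ : Measure Ω) [IsProbabilityMeasure μ]
    (X : P1 → Ω → ℝ) (hmeas : ∀ p, Measurable (X p)) (hindep : iIndepFun X μ)
    (hval : ∀ p ω, X p ω = 1 ∨ X p ω = -1)
    (hdiv : Tendsto (fun t : ℝ => ∑' p : P1,
      if Real.log t ^ 4 < nm (p : GaussianInt) ∧ nm (p : GaussianInt) ≤ t then
        (1 - |∫ ω, X p ω ∂μ|) / nm (p : GaussianInt) else 0) atTop atTop) :
    ∀ᵐ ω ∂μ, ∀ (f χ : GaussianInt → ℝ) (m : ℕ), IsBCM f → 0 < m → IsRayChar m χ →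
      Summable (fun p : P1 => (|f (p : GaussianInt)| -
        X p ω * χ (p : GaussianInt) * f (p : GaussianInt)) / nm (p : GaussianInt)) →
      ShortAvg f sqr ∧ ∀ Φ : ℕ → Finset GaussianInt, IsDilatedFolner Φ → ShortAvg f Φ :=
  Pool.Agent.RSG.main2 ⟨hmeas, hindep, hval⟩ hdiv

end Pool.Agent.Results.MP_41f28e_nt.RandomSigns
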